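import Pool.Agent.P.MP_72aa19_al.D.Kos

/-! Graded modules with the extension property of Baer have no higher Cech cohomology. -/

namespace Pool.Agent.P.MP_72aa19_al

variable {K R : Type*} [Field K] [CommRing R] [Algebra K R] {n : ℕ}
  {P : Type*} [AddCommGroup P] [Module R P]

/-- the graded extension property -/
def Baer (𝒜 : ℕ → Submodule K R) (G : ℤ → AddSubgroup P) : Prop :=
  ∀ (φ : R →ₗ.[R] P) (d : ℤ), ∃ m ∈ G d, ∀ (y : φ.domain) (a : ℤ),
    y.1 ∈ gradeZ 𝒜 (a - d) → φ y ∈ G a → y.1 • m = φ y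

/-- elements that are killed by a power of `r` -/
def torsOf (P : Type*) [AddCommGroup P] [Module R P] (r : R) : Submodule R P where
  carrier := {m | ∃ k : ℕ, r ^ k • m = 0}
  zero_mem' := ⟨0, smul_zero _⟩
  add_mem' := by
    rintro m m' ⟨k, h⟩ ⟨k', h'⟩
    refine ⟨k + k', ?_⟩
    have h1 : r ^ (k + k') • m = 0 := by rw [pow_add, mul_comm, mul_smul, h, smul_zero]
    have h2 : r ^ (k + k') • m' = 0 := by rw [pow_add, mul_smul, h', smul_zero]
    rw [smul_add, h1, h2, add_zero]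
  smul_mem' := by
    rintro c m ⟨k, h⟩
    exact ⟨k, by rw [smul_comm, h, smul_zero]⟩

variable [IsDomain R] {𝒜 : ℕ → Submodule K R} [GradedAlgebra 𝒜] {G : ℤ → AddSubgroup P}
  {x : Fin n → R}

omit [GradedAlgebra 𝒜] in
theorem Baer.div (h : Baer 𝒜 G) {r : R} (h0 : r ≠ 0) {d e : ℤ} (hr : r ∈ gradeZ 𝒜 (e - d))
    {m : P} (hm : m ∈ G e) : ∃ m' ∈ G d, r • m' = m := by
  have H : ∀ c : R, c • r = 0 → (RingHom.id R) c • m = 0 := fun c hc => by
    rw [(smul_eq_zero.1 hc).resolve_right h0, RingHom.id_apply, zero_smul]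
  obtain ⟨m', h1, h2⟩ := h (LinearPMap.mkSpanSingleton' r m H) d
  have e1 := LinearPMap.mkSpanSingleton'_apply_self r m H (Submodule.mem_span_singleton_self r)
  exact ⟨m', h1, (h2 ⟨r, Submodule.mem_span_singleton_self r⟩ e hr (e1.symm ▸ hm)).trans e1⟩

theorem Baer.tors [IsNoetherianRing R] (h : Baer 𝒜 G) {r : R} (hr : r ∈ 𝒜 1) :
    Baer 𝒜 fun a => G a ⊓ (torsOf P r).toAddSubgroup := by
  intro φ d
  obtain ⟨N, hN⟩ := monotone_stabilizes_iff_noetherian.2
    (inferInstance : IsNoetherian R φ.domain)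
    ⟨fun k => LinearMap.ker (r ^ k • φ.toFun), monotone_nat_of_le_succ fun k y hy => by
      have : r ^ k • φ.toFun y = 0 := hy
      change r ^ (k + 1) • φ.toFun y = 0
      rw [pow_succ', mul_smul, this, smul_zero]⟩
  set J : Ideal R := (LinearMap.ker (r ^ N • φ.toFun)).map φ.domain.subtype with hJ
  have hJ1 : ∀ y : φ.domain, y.1 ∈ J ↔ r ^ N • φ y = 0 := fun y =>
    ⟨fun ⟨z, h1, h2⟩ => (Subtype.ext h2 : z = y) ▸ h1, fun h1 => ⟨y, h1, rfl⟩⟩
  have hJ2 : J ≤ φ.domain := Submodule.map_subtype_le _ _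
  obtain ⟨M, hM⟩ := monotone_stabilizes_iff_noetherian.2 (inferInstance : IsNoetherian R R)
    ⟨fun k => Submodule.comap (LinearMap.mulLeft R (r ^ k)) J,
      monotone_nat_of_le_succ fun k y hy => by
        have : r ^ k * y ∈ J := hy
        change r ^ (k + 1) * y ∈ J
        rw [pow_succ', mul_assoc]
        exact J.mul_mem_left _ this⟩
  let f : R →ₗ.[R] P := ⟨J, φ.toFun ∘ₗ Submodule.inclusion hJ2⟩
  let g : R →ₗ.[R] P := ⟨Ideal.span {r ^ (M + N)}, 0⟩
  have hfg : ∀ (y : f.domain) (z : g.domain), (y : R) = z → f y = g z := by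
    rintro ⟨y, hy⟩ ⟨z, hz⟩ (rfl : y = z)
    obtain ⟨c, rfl⟩ := Ideal.mem_span_singleton'.1 hz
    have h1 : c ∈ Submodule.comap (LinearMap.mulLeft R (r ^ (M + N))) J := by
      change r ^ (M + N) * c ∈ J
      rwa [mul_comm]
    have h2 : r ^ M * c ∈ J := (hM (M + N) (by omega)).ge h1
    have h3 := (hJ1 ⟨_, hJ2 h2⟩).1 h2
    rw [← φ.map_smul] at h3
    refine Eq.trans (congrArg φ (Subtype.ext ?_)) h3
    change c * r ^ (M + N) = r ^ N * (r ^ M * c)
    ring
  obtain ⟨m, h1, h2⟩ := h (f.sup g hfg) d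
  have hf := f.left_le_sup g hfg
  have hg := f.right_le_sup g hfg
  refine ⟨m, ⟨h1, M + N, ?_⟩, fun y a h3 h4 => ?_⟩
  · have h5 : r ^ (M + N) ∈ g.domain := Ideal.mem_span_singleton_self _
    have h6 : (0 : P) = f.sup g hfg ⟨_, hg.1 h5⟩ := hg.2 (x := ⟨_, h5⟩) rfl
    refine (h2 ⟨_, hg.1 h5⟩ (d + (M + N : ℕ)) ?_ (h6 ▸ zero_mem _)).trans h6.symm
    rw [add_sub_cancel_left]
    exact pow_mem_gradeZ hr _
  · obtain ⟨k, hk⟩ := h4.2
    have h5 : y.1 ∈ f.domain := by
      refine (hJ1 y).2 ((hN (N + k) (by omega)).ge (?_ : r ^ (N + k) • φ y = 0))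
      rw [pow_add, mul_smul, hk, smul_zero]
    have h6 : φ y = f.sup g hfg ⟨_, hf.1 h5⟩ := hf.2 (x := ⟨_, h5⟩) rfl
    exact (h2 ⟨_, hf.1 h5⟩ a h3 (h6 ▸ h4.1)).trans h6.symm

theorem Baer.kv_aux [IsNoetherianRing R] (hx : Gen 𝒜 x) (i : ℕ) (d : ℤ) (U : Finset (Fin n)) :
    ∀ G : ℤ → AddSubgroup P, IsGr 𝒜 G → Baer 𝒜 G →
      (∀ j ∉ U, ∀ a, ∀ m ∈ G a, m ∈ torsOf P (x j)) → KV x G (i + 1) d := by
  induction U using Finset.induction_on with
  | empty =>
    intro G _ _ h t c hc _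
    have : ∀ᶠ s : ℕ in Filter.atTop, ∀ T : Finset (Fin n), T.card = i + 1 → kT x s c T = 0 :=
      Filter.eventually_all.2 fun T => by
        by_cases hT : T.card = i + 1
        · obtain ⟨j, hj⟩ : T.Nonempty := Finset.card_pos.1 (by omega)
          obtain ⟨k, hk⟩ := h j (Finset.notMem_empty j) _ _ (hc T hT)
          filter_upwards [Filter.eventually_ge_atTop k] with s hs _
          obtain ⟨l, rfl⟩ := Nat.exists_eq_add_of_le' hs
          rw [kT, ← Finset.prod_erase_mul T x hj, mul_pow, pow_add (x j), ← mul_assoc, mul_smul,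
            hk, smul_zero]
        · exact .of_forall fun _ h => absurd h hT
    obtain ⟨s, hs⟩ := this.exists
    exact ⟨s, 0, fun _ _ => zero_mem _, fun T hT => by rw [hs T hT, kD_zero]⟩
  | insert j U hj ih =>
    intro G hG hB h t c hc hz
    have hb : ∀ S : Finset (Fin n), ∃ b : P, (j ∈ S → b = 0) ∧ (S.card = i →
        b ∈ G (d + t * S.card) ∧ (j ∉ S → x j ^ t • b = sgn R (insert j S) j • c (insert j S))) := by
      intro S
      by_cases h1 : S.card = i ∧ j ∉ S
      · have e := Finset.card_insert_of_notMem h1.2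
        obtain ⟨b, h2, h3⟩ := hB.div (pow_ne_zero t (hx.ne j)) (d := d + t * S.card)
          (e := d + t * (insert j S).card) (m := sgn R (insert j S) j • c (insert j S))
          (by
            rw [e]
            convert pow_mem_gradeZ (hx.deg j) t using 2
            push_cast
            ring) (hG (sgn_mem _ _) (hc _ (by omega)) (add_zero _).symm)
        exact ⟨b, fun h => absurd h h1.2, fun _ => ⟨h2, fun _ => h3⟩⟩
      · exact ⟨0, fun _ => rfl, fun h2 => ⟨zero_mem _, fun h3 => absurd ⟨h2, h3⟩ h1⟩⟩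
    choose b hb0 hb using hb
    have hb1 : Co' G d t (i + 1) b := fun S hS => (hb S (by omega)).1
    have hz' : Cy x t (i + 1) (c - kD x t b) := fun T hT => by rw [kD_sub, hz T hT, kD_kD, sub_zero]
    have h1 : ∀ T : Finset (Fin n), T.card = i + 1 → j ∈ T → (c - kD x t b) T = 0 := by
      intro T hT hj
      have e := Finset.card_erase_add_one hj
      rw [Pi.sub_apply, kD, Finset.sum_eq_single_of_mem j hj fun l _ hl => by
        rw [hb0 _ (Finset.mem_erase.2 ⟨hl.symm, hj⟩), smul_zero], mul_smul,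
        (hb _ (by omega)).2 (Finset.notMem_erase j T), Finset.insert_erase hj, smul_smul,
        sgn_mul_self, one_smul, sub_self]
    obtain ⟨s, b', h2, h3⟩ := ih _ (hG.ker (torsOf P (x j))) (hB.tors (hx.deg j))
      (fun l hl a m hm => by
        by_cases e : l = j
        · exact e ▸ hm.2
        · exact h l (by simp [e, hl]) a m hm.1) t (c - kD x t b)
      (fun T hT => ⟨(G _).sub_mem (hc T hT) (hG.kD hx hb1 T hT), t, by
        by_cases hj : j ∈ T
        · rw [h1 T hT hj, smul_zero]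
        · have e := Finset.card_insert_of_notMem hj
          have h4 := hz' (insert j T) (by omega)
          rw [kD, Finset.sum_eq_single_of_mem j (Finset.mem_insert_self j T) fun l hl hlj => by
            rw [h1 _ (by have := Finset.card_erase_add_one hl; omega)
              (Finset.mem_erase.2 ⟨hlj.symm, Finset.mem_insert_self j T⟩), smul_zero],
            Finset.erase_insert hj] at h4
          rw [← one_mul (x j ^ t), ← sgn_mul_self (insert j T) j, mul_assoc, mul_smul, h4,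
            smul_zero]⟩) hz'
    refine ⟨s, b' + kT x s b, fun S hS => add_mem (h2 S hS).1 (hG.kT hx s (hb1 S hS)),
      fun T hT => ?_⟩
    rw [kD_add, ← h3 T hT, kD_kT, kT, kT, kT, Pi.sub_apply, smul_sub, sub_add_cancel]

theorem Baer.kv [IsNoetherianRing R] (hx : Gen 𝒜 x) (hG : IsGr 𝒜 G) (h : Baer 𝒜 G) (i : ℕ)
    (d : ℤ) : KV x G (i + 1) d :=
  Baer.kv_aux hx i d Finset.univ G hG h fun j hj => absurd (Finset.mem_univ j) hj

end Pool.Agent.P.MP_72aa19_al
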