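import Pool.Agent.P.MP_72aa19_al.Defs

/-!
Graded local cohomology as a right derived functor. A `ℤ`-graded module over the graded ring `R`
is a family of abelian groups `M_a` with biadditive, associative and unital multiplication maps
`R_{b-a} × M_a → M_b`, that is, an additive functor from the category `Deg 𝒜` (objects: integers,
morphisms `a ⟶ b`: elements of `R_{b-a}`) to abelian groups; natural transformations are the
`R`-linear maps of degree zero. This category is abelian with enough injectives, and
`H^i_𝔞 = R^i Γ_𝔞` is Mathlib's right derived functor.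
-/

namespace Pool.Agent.P.MP_72aa19_al

open CategoryTheory CategoryTheory.Limits

variable {K R : Type} [Field K] [CommRing R] [Algebra K R]

theorem one_mem_gradeZ (𝒜 : ℕ → Submodule K R) [GradedAlgebra 𝒜] (a : ℤ) :
    (1 : R) ∈ gradeZ 𝒜 (a - a) := by
  simp only [gradeZ, sub_self, le_refl, if_true, Int.toNat_zero]
  exact SetLike.GradedOne.one_mem

theorem mul_mem_gradeZ (𝒜 : ℕ → Submodule K R) [GradedAlgebra 𝒜] {d e c : ℤ} {r s : R}
    (hr : r ∈ gradeZ 𝒜 d) (hs : s ∈ gradeZ 𝒜 e) (h : c = d + e) : r * s ∈ gradeZ 𝒜 c := by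
  subst h
  unfold gradeZ at *
  by_cases hd : 0 ≤ d
  · by_cases he : 0 ≤ e
    · rw [if_pos hd] at hr
      rw [if_pos he] at hs
      rw [if_pos (by omega), Int.toNat_add hd he]
      exact SetLike.GradedMul.mul_mem hr hs
    · rw [if_neg he, Submodule.mem_bot] at hs
      rw [hs, mul_zero]
      exact Submodule.zero_mem _
  · rw [if_neg hd, Submodule.mem_bot] at hr
    rw [hr, zero_mul]
    exact Submodule.zero_mem _

/-- The objects of the category of degrees: the integers. -/
structure Deg (𝒜 : ℕ → Submodule K R) where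
  deg : ℤ

variable (𝒜 : ℕ → Submodule K R) [GradedAlgebra 𝒜]

/-- A morphism `a ⟶ b` is an element of `R_{b-a}`; composition is the product in `R`. -/
instance degCategory : Category (Deg 𝒜) where
  Hom a b := gradeZ 𝒜 (b.deg - a.deg)
  id a := ⟨1, one_mem_gradeZ 𝒜 a.deg⟩
  comp f g := ⟨f.1 * g.1, mul_mem_gradeZ 𝒜 f.2 g.2 (by ring)⟩
  id_comp f := Subtype.ext (one_mul f.1)
  comp_id f := Subtype.ext (mul_one f.1)
  assoc f g h := Subtype.ext (mul_assoc f.1 g.1 h.1)

/-- Morphisms are added as elements of `R`. -/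
instance degPreadditive : Preadditive (Deg 𝒜) where
  homGroup a b := Submodule.addCommGroup (gradeZ 𝒜 (b.deg - a.deg))
  add_comp _ _ _ f f' g := Subtype.ext (add_mul f.1 f'.1 g.1)
  comp_add _ _ _ f g g' := Subtype.ext (mul_add f.1 g.1 g'.1)

/-- The category of `ℤ`-graded `R`-modules with maps of degree zero. -/
abbrev GrMod := AdditiveFunctor (Deg 𝒜) AddCommGrpCat.{0}

section Abelian

variable {C : Type} [SmallCategory C] [Preadditive C]

instance additive_subobjects :
    (additiveFunctor C AddCommGrpCat.{0}).IsClosedUnderSubobjects where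
  prop_of_mono {F G} f _ hG := by
    have : G.Additive := hG
    refine ⟨fun {a b g h} => ?_⟩
    rw [← cancel_mono (f.app b), Preadditive.add_comp, f.naturality, f.naturality, f.naturality,
      G.map_add, Preadditive.comp_add]

instance additive_quotients :
    (additiveFunctor C AddCommGrpCat.{0}).IsClosedUnderQuotients where
  prop_of_epi {F G} f _ hF := by
    have : F.Additive := hF
    refine ⟨fun {a b g h} => ?_⟩
    rw [← cancel_epi (f.app a), Preadditive.comp_add, ← f.naturality, ← f.naturality,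
      ← f.naturality, F.map_add, Preadditive.add_comp]

instance additive_zero : (additiveFunctor C AddCommGrpCat.{0}).ContainsZero where
  exists_zero := by
    have hz := isZero_zero (C ⥤ AddCommGrpCat.{0})
    exact ⟨_, hz, ⟨fun {a b g h} => (hz.obj a).eq_of_src _ _⟩⟩

instance additive_products :
    (additiveFunctor C AddCommGrpCat.{0}).IsClosedUnderFiniteProducts where
  isClosedUnderLimitsOfShape J _ := ⟨by
    rintro F ⟨p⟩
    refine ⟨fun {a b g h} => ?_⟩
    refine (isLimitOfPreserves ((evaluation C AddCommGrpCat.{0}).obj b) p.isLimit).hom_ext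
      (fun j => ?_)
    have : (p.diag.obj j).Additive := p.prop_diag_obj j
    change F.map (g + h) ≫ (p.π.app j).app b = (F.map g + F.map h) ≫ (p.π.app j).app b
    have hn : ∀ u : a ⟶ b, F.map u ≫ (p.π.app j).app b =
        (p.π.app j).app a ≫ (p.diag.obj j).map u := fun u => (p.π.app j).naturality u
    rw [Preadditive.add_comp, hn, hn, hn, Functor.map_add, Preadditive.comp_add]⟩

/-- The coinduced object `a ↦ ∏_b Hom_ℤ(C(a,b), I_b)`. -/
def coind (I : C → AddCommGrpCat.{0}) : C ⥤ AddCommGrpCat.{0} where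
  obj a := AddCommGrpCat.of (∀ b : C, (a ⟶ b) →+ I b)
  map {a a'} r := AddCommGrpCat.ofHom
    { toFun := fun φ b => (φ b).comp (Preadditive.leftComp b r)
      map_zero' := rfl
      map_add' := fun _ _ => rfl }
  map_id a := by
    ext φ b s
    change φ b (𝟙 a ≫ s) = φ b s
    rw [Category.id_comp]
  map_comp r r' := by
    ext φ b s
    change φ b ((r ≫ r') ≫ s) = φ b (r ≫ r' ≫ s)
    rw [Category.assoc]

theorem coind_additive (I : C → AddCommGrpCat.{0}) : (coind I).Additive := ⟨fun {a a' r r'} => by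
  ext φ
  refine funext fun b => AddMonoidHom.ext fun s => ?_
  change φ b ((r + r') ≫ s) = φ b (r ≫ s) + φ b (r' ≫ s)
  rw [Preadditive.add_comp, map_add]⟩

/-- The map to the coinduced object given by a family of maps `N_b → I_b`. -/
def toCoind {I : C → AddCommGrpCat.{0}} (N : C ⥤ AddCommGrpCat.{0}) [N.Additive]
    (g : ∀ b, N.obj b ⟶ I b) : N ⟶ coind I where
  app a := AddCommGrpCat.ofHom
    { toFun := fun n b =>
        { toFun := fun s => g b (N.map s n)
          map_zero' := by simp
          map_add' := fun s s' => by simp }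
      map_zero' := by ext b s; simp
      map_add' := fun n n' => by ext b s; simp }
  naturality a a' r := by
    ext n
    refine funext fun b => AddMonoidHom.ext fun s => ?_
    change g b (N.map s (N.map r n)) = g b (N.map (r ≫ s) n)
    simp

theorem mono_app {M N : AdditiveFunctor C AddCommGrpCat.{0}} (i : M ⟶ N) [Mono i] (a : C) :
    Mono (i.hom.app a) := by
  have := (additiveFunctor C AddCommGrpCat.{0}).preservesMonomorphisms_ι_of_isNormalEpiCategory
  have : Mono i.hom := inferInstanceAs (Mono ((additiveFunctor C AddCommGrpCat.{0}).ι.map i))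
  infer_instance

theorem coind_injective (I : C → AddCommGrpCat.{0}) [∀ b, Injective (I b)] :
    Injective (⟨coind I, coind_additive I⟩ : AdditiveFunctor C AddCommGrpCat.{0}) where
  factors {M N} f i _ := by
    have := mono_app i
    let ev : ∀ b : C, (coind I).obj b ⟶ I b := fun b => AddCommGrpCat.ofHom
      { toFun := fun φ => φ b (𝟙 b)
        map_zero' := rfl
        map_add' := fun _ _ => rfl }
    let g : ∀ b : C, N.obj.obj b ⟶ I b := fun b =>
      Injective.factorThru (f.hom.app b ≫ ev b) (i.hom.app b)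
    have hg : ∀ b : C, i.hom.app b ≫ g b = f.hom.app b ≫ ev b := fun b =>
      Injective.comp_factorThru _ _
    refine ⟨ObjectProperty.homMk (toCoind N.obj g), ?_⟩
    ext a n
    refine funext fun b => AddMonoidHom.ext fun s => ?_
    change g b (N.obj.map s (i.hom.app a n)) = f.hom.app a n b s
    have h1 : N.obj.map s (i.hom.app a n) = i.hom.app b (M.obj.map s n) :=
      (ConcreteCategory.congr_hom (i.hom.naturality s) n).symm
    have h2 : g b (i.hom.app b (M.obj.map s n)) = ev b (f.hom.app b (M.obj.map s n)) :=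
      ConcreteCategory.congr_hom (hg b) _
    have h3 : f.hom.app b (M.obj.map s n) = (coind I).map s (f.hom.app a n) :=
      ConcreteCategory.congr_hom (f.hom.naturality s) n
    rw [h1, h2, h3]
    change f.hom.app a n b (s ≫ 𝟙 b) = _
    rw [Category.comp_id]

instance additive_enoughInjectives : EnoughInjectives (AdditiveFunctor C AddCommGrpCat.{0}) where
  presentation M := ⟨
    { J := ⟨coind (fun b => Injective.under (M.obj.obj b)), coind_additive _⟩
      injective := coind_injective _
      f := ObjectProperty.homMk (toCoind M.obj (fun b => Injective.ι (M.obj.obj b)))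
      mono := by
        apply (additiveFunctor C AddCommGrpCat.{0}).ι.mono_of_mono_map
        change Mono (toCoind M.obj (fun b => Injective.ι (M.obj.obj b)))
        rw [NatTrans.mono_iff_mono_app]
        intro a
        rw [AddCommGrpCat.mono_iff_injective, injective_iff_map_eq_zero]
        intro m hm
        have h1 : Injective.ι (M.obj.obj a) (M.obj.map (𝟙 a) m) = 0 :=
          congrArg (fun φ : (∀ b : C, (a ⟶ b) →+
            (Injective.under (M.obj.obj b) : AddCommGrpCat.{0})) => φ a (𝟙 a)) hm
        have h2 := (AddCommGrpCat.mono_iff_injective (Injective.ι (M.obj.obj a))).1 inferInstance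
        rw [injective_iff_map_eq_zero] at h2
        simpa using h2 _ h1 }⟩

/-- The restriction of `f : A ⟶ B` to subgroups `S` of `A` and `T` of `B` with `f S ⊆ T`. -/
def restr {A B : AddCommGrpCat.{0}} (f : A ⟶ B) (S : AddSubgroup A) (T : AddSubgroup B)
    (h : ∀ m : S, f m.1 ∈ T) : AddCommGrpCat.of S ⟶ AddCommGrpCat.of T :=
  AddCommGrpCat.ofHom ((f.hom.comp S.subtype).codRestrict T h)

/-- The subgroups `S_a` of `M_a` are mapped into each other by all morphisms. -/
def Stable (M : C ⥤ AddCommGrpCat.{0}) (S : ∀ a, AddSubgroup (M.obj a)) : Prop :=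
  ∀ (a b : C) (r : a ⟶ b) (m : S a), M.map r m.1 ∈ S b

/-- The subfunctor `a ↦ S_a` of `M`. -/
def subObj (M : C ⥤ AddCommGrpCat.{0}) (S : ∀ a, AddSubgroup (M.obj a)) (h : Stable M S) :
    C ⥤ AddCommGrpCat.{0} where
  obj a := AddCommGrpCat.of (S a)
  map {a b} r := restr (M.map r) (S a) (S b) (h a b r)
  map_id a := by
    ext m
    exact ConcreteCategory.congr_hom (M.map_id a) m.1
  map_comp r s := by
    ext m
    exact ConcreteCategory.congr_hom (M.map_comp r s) m.1

theorem subObj_additive (M : C ⥤ AddCommGrpCat.{0}) [M.Additive] (S : ∀ a, AddSubgroup (M.obj a))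
    (h : Stable M S) : (subObj M S h).Additive := ⟨fun {a b r s} => by
  ext m
  exact Subtype.ext (ConcreteCategory.congr_hom (M.map_add (f := r) (g := s)) m.1)⟩

/-- The restriction of a natural transformation to subfunctors. -/
def subMap {M M' : C ⥤ AddCommGrpCat.{0}} (f : M ⟶ M') {S : ∀ a, AddSubgroup (M.obj a)}
    {S' : ∀ a, AddSubgroup (M'.obj a)} (h : Stable M S) (h' : Stable M' S')
    (hf : ∀ (a : C) (m : S a), f.app a m.1 ∈ S' a) : subObj M S h ⟶ subObj M' S' h' where
  app a := restr (f.app a) (S a) (S' a) (hf a)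
  naturality a b r := by
    ext m
    exact Subtype.ext (ConcreteCategory.congr_hom (f.naturality r) m.1)

/-- A decreasing sequence of classes of morphisms, each stable under precomposition (below: the
homogeneous elements of the powers `𝔞 ^ N` of an ideal). -/
structure Filt (C : Type) [SmallCategory C] where
  mem : ℕ → ∀ (a b : C), (a ⟶ b) → Prop
  anti : ∀ (N N' : ℕ) (a b : C) (r : a ⟶ b), N ≤ N' → mem N' a b r → mem N a b r
  comp : ∀ (N : ℕ) (a b c : C) (r : a ⟶ b) (s : b ⟶ c), mem N b c s → mem N a c (r ≫ s)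

/-- The elements of `M_a` killed by all morphisms of the `N`-th class, for some `N`. -/
def torsionPart (F : Filt C) (M : C ⥤ AddCommGrpCat.{0}) (a : C) : AddSubgroup (M.obj a) where
  carrier := {m | ∃ N : ℕ, ∀ (b : C) (r : a ⟶ b), F.mem N a b r → M.map r m = 0}
  zero_mem' := ⟨0, fun _ _ _ => map_zero _⟩
  add_mem' := by
    rintro m m' ⟨N, h⟩ ⟨N', h'⟩
    refine ⟨N + N', fun b r hr => ?_⟩
    rw [map_add, h b r (F.anti _ _ _ _ _ (by omega) hr), h' b r (F.anti _ _ _ _ _ (by omega) hr),
      add_zero]
  neg_mem' := by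
    rintro m ⟨N, h⟩
    exact ⟨N, fun b r hr => by rw [map_neg, h b r hr, neg_zero]⟩

omit [Preadditive C] in
theorem stable_torsionPart (F : Filt C) (M : C ⥤ AddCommGrpCat.{0}) :
    Stable M (torsionPart F M) := by
  intro a b r m
  obtain ⟨N, h⟩ := m.2
  refine ⟨N, fun c s hs => ?_⟩
  have := h c (r ≫ s) (F.comp _ _ _ _ _ _ hs)
  rwa [Functor.map_comp] at this

omit [Preadditive C] in
theorem app_mem_torsionPart (F : Filt C) {M M' : C ⥤ AddCommGrpCat.{0}} (f : M ⟶ M') (a : C)
    (m : torsionPart F M a) : f.app a m.1 ∈ torsionPart F M' a := by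
  obtain ⟨N, h⟩ := m.2
  refine ⟨N, fun c s hs => ?_⟩
  have h1 : f.app c (M.map s m.1) = M'.map s (f.app a m.1) :=
    ConcreteCategory.congr_hom (f.naturality s) m.1
  rw [← h1, h c s hs, map_zero]

/-- The subobject `Γ(M)` of torsion elements of `M`. -/
def gammaObj (F : Filt C) (M : AdditiveFunctor C AddCommGrpCat.{0}) :
    AdditiveFunctor C AddCommGrpCat.{0} :=
  ⟨subObj M.obj (torsionPart F M.obj) (stable_torsionPart F M.obj), subObj_additive _ _ _⟩

/-- The restriction `Γ(f)` of `f` to torsion elements. -/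
def gammaMap (F : Filt C) {M M' : AdditiveFunctor C AddCommGrpCat.{0}} (f : M ⟶ M') :
    gammaObj F M ⟶ gammaObj F M' :=
  ObjectProperty.homMk (subMap f.hom (stable_torsionPart F M.obj) (stable_torsionPart F M'.obj)
    (app_mem_torsionPart F f.hom))

/-- The torsion functor `Γ`. -/
def gammaFunctor (F : Filt C) :
    AdditiveFunctor C AddCommGrpCat.{0} ⥤ AdditiveFunctor C AddCommGrpCat.{0} where
  obj := gammaObj F
  map := gammaMap F
  map_id _ := rfl
  map_comp _ _ := rfl

instance gammaFunctor_additive (F : Filt C) : (gammaFunctor F).Additive where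
  map_add := rfl

/-- `R^i Γ (M)`, Mathlib's `i`-th right derived functor of `Γ`. -/
noncomputable def derivedGamma (F : Filt C) (i : ℕ) (M : AdditiveFunctor C AddCommGrpCat.{0}) :
    AdditiveFunctor C AddCommGrpCat.{0} :=
  ((gammaFunctor F).rightDerived i).obj M

/-- `M_a ≠ 0`. -/
def NonzeroAt (M : AdditiveFunctor C AddCommGrpCat.{0}) (a : C) : Prop := ¬ IsZero (M.obj.obj a)

end Abelian

/-- The homogeneous elements of the powers of `𝔞`; the torsion functor is then `Γ_𝔞`. -/
def powFilt (𝔞 : Ideal R) : Filt (Deg 𝒜) where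
  mem N _ _ r := r.1 ∈ 𝔞 ^ N
  anti _ _ _ _ _ h hr := Ideal.pow_le_pow_right h hr
  comp _ _ _ _ _ _ hs := Ideal.mul_mem_left _ _ hs

/-- The functor with value `R` at every degree, on which `r` acts by multiplication. -/
def ringFun : Deg 𝒜 ⥤ AddCommGrpCat.{0} where
  obj _ := AddCommGrpCat.of R
  map r := AddCommGrpCat.ofHom (AddMonoidHom.mulLeft r.1)
  map_id a := by ext m; exact one_mul m
  map_comp r s := by ext m; exact (mul_assoc r.1 s.1 m).trans (mul_left_comm _ _ _)

instance ringFun_additive : (ringFun 𝒜).Additive :=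
  ⟨fun {a b r s} => by ext m; exact add_mul r.1 s.1 m⟩

/-- `J_a = J ∩ R_a`. -/
def idealPiece (J : Ideal R) (a : Deg 𝒜) : AddSubgroup R :=
  J.toAddSubgroup ⊓ (gradeZ 𝒜 a.deg).toAddSubgroup

theorem stable_idealPiece (J : Ideal R) : Stable (ringFun 𝒜) (idealPiece 𝒜 J) :=
  fun _ _ r m => ⟨J.mul_mem_left _ m.2.1, mul_mem_gradeZ 𝒜 r.2 m.2.2 (by ring)⟩

/-- The homogeneous ideal `J` as a graded module: `J_a = J ∩ R_a`. -/
def idealMod (J : Ideal R) : GrMod 𝒜 :=
  ⟨subObj (ringFun 𝒜) (idealPiece 𝒜 J) (stable_idealPiece 𝒜 J), subObj_additive _ _ _⟩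

/-- Local cohomology `H^i_{R₊}(M)`, a graded module: the `i`-th right derived functor of
`Γ_{R₊}`, where `R₊` is the irrelevant ideal. -/
noncomputable def localCoh (i : ℕ) (M : GrMod 𝒜) : GrMod 𝒜 :=
  derivedGamma (powFilt 𝒜 (HomogeneousIdeal.irrelevant 𝒜).toIdeal) i M

/-- `reg M = max_i (a_i(M) + i) = sup {d + i : H^i_{R₊}(M)_d ≠ 0}`. -/
noncomputable def regularity (M : GrMod 𝒜) : EReal :=
  ⨆ (i : ℕ) (d : ℤ) (_ : NonzeroAt (localCoh 𝒜 i M) ⟨d⟩), (((d + i : ℤ) : ℝ) : EReal)

end Pool.Agent.P.MP_72aa19_al
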