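import Pool.Agent.P.MP_72aa19_al.Cech

/-! The Cech complex of a graded module as a colimit of Koszul complexes; dimension shifting. -/

namespace Pool.Agent.P.MP_72aa19_al

variable {K R : Type*} [Field K] [CommRing R] [Algebra K R] {n : ℕ}
  {P P' : Type*} [AddCommGroup P] [Module R P] [AddCommGroup P'] [Module R P']

/-- the Koszul differential of `x ^ t` -/
def kD (x : Fin n → R) (t : ℕ) (c : Finset (Fin n) → P) (T : Finset (Fin n)) : P :=
  ∑ j ∈ T, (sgn R T j * x j ^ t) • c (T.erase j)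

/-- the transition maps -/
def kT (x : Fin n → R) (s : ℕ) (c : Finset (Fin n) → P) (S : Finset (Fin n)) : P :=
  (∏ j ∈ S, x j) ^ s • c S

variable {x : Fin n → R} {t s i : ℕ} {c c' : Finset (Fin n) → P} {T : Finset (Fin n)} {d : ℤ}

theorem kD_congr (h : ∀ S, S.card + 1 = T.card → c S = c' S) : kD x t c T = kD x t c' T :=
  Finset.sum_congr rfl fun j hj => by rw [h _ (Finset.card_erase_add_one hj)]

theorem kD_add : kD x t (c + c') T = kD x t c T + kD x t c' T := by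
  simp only [kD, Pi.add_apply, smul_add, Finset.sum_add_distrib]

theorem kD_sub : kD x t (c - c') T = kD x t c T - kD x t c' T := by
  simp only [kD, Pi.sub_apply, smul_sub, Finset.sum_sub_distrib]

theorem kD_zero : kD x t (0 : Finset (Fin n) → P) T = 0 := by simp [kD]

theorem kD_map (f : P →ₗ[R] P') : kD x t (f ∘ c) T = f (kD x t c T) := by
  simp only [kD, Function.comp, map_sum, map_smul]

theorem kT_map (f : P →ₗ[R] P') : kT x s (f ∘ c) T = f (kT x s c T) := by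
  simp only [kT, Function.comp, map_smul]

theorem kT_kT (s s' : ℕ) : kT x s' (kT x s c) T = kT x (s + s') c T := by
  simp only [kT, smul_smul, ← pow_add, add_comm]

theorem kD_kT : kD x (t + s) (kT x s c) T = kT x s (kD x t c) T := by
  simp only [kD, kT, Finset.smul_sum, smul_smul]
  refine Finset.sum_congr rfl fun j hj => ?_
  rw [← Finset.mul_prod_erase T x hj]
  congr 1
  ring

theorem kD_kD : kD x t (kD x t c) T = 0 := by
  have h1 : kD x t (kD x t c) T = ∑ p ∈ T.sigma (fun j => T.erase j),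
      (sgn R T p.1 * sgn R (T.erase p.1) p.2 * (x p.1 ^ t * x p.2 ^ t)) •
        c ((T.erase p.1).erase p.2) := by
    rw [Finset.sum_sigma, kD]
    refine Finset.sum_congr rfl fun j _ => ?_
    rw [kD, Finset.smul_sum]
    refine Finset.sum_congr rfl fun l _ => ?_
    rw [smul_smul]
    congr 1
    ring
  rw [h1]
  refine Finset.sum_involution (fun p _ => ⟨p.2, p.1⟩) ?_ ?_ ?_ ?_
  · rintro ⟨j, l⟩ hp
    simp only [Finset.mem_sigma, Finset.mem_erase] at hp
    have := sgn_swap (F := R) hp.1 hp.2.2 hp.2.1.symm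
    simp only
    rw [this, Finset.erase_right_comm (s := T) (a := l) (b := j), ← add_smul, mul_comm (x l ^ t),
      neg_mul, neg_add_cancel, zero_smul]
  · rintro ⟨j, l⟩ hp _ h
    simp only [Finset.mem_sigma, Finset.mem_erase] at hp
    simp only [Sigma.mk.injEq] at h
    exact hp.2.1 h.1
  · rintro ⟨j, l⟩ hp
    simp only [Finset.mem_sigma, Finset.mem_erase] at hp ⊢
    exact ⟨hp.2.2, hp.2.1.symm, hp.1⟩
  · rintro ⟨j, l⟩ _
    rfl

/-- the family `G` is a grading -/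
def IsGr (𝒜 : ℕ → Submodule K R) (G : ℤ → AddSubgroup P) : Prop :=
  ∀ ⦃e a b : ℤ⦄ ⦃r : R⦄ ⦃m : P⦄, r ∈ gradeZ 𝒜 e → m ∈ G a → b = a + e → r • m ∈ G b

/-- cochains of size `i`, level `t` and degree `d` -/
def Co (G : ℤ → AddSubgroup P) (d : ℤ) (t i : ℕ) (c : Finset (Fin n) → P) : Prop :=
  ∀ S, S.card = i → c S ∈ G (d + t * S.card)

/-- cochains of size `i - 1` -/
def Co' (G : ℤ → AddSubgroup P) (d : ℤ) (t i : ℕ) (c : Finset (Fin n) → P) : Prop :=
  ∀ S, S.card + 1 = i → c S ∈ G (d + t * S.card)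

/-- cocycles -/
def Cy (x : Fin n → R) (t i : ℕ) (c : Finset (Fin n) → P) : Prop :=
  ∀ T, T.card = i + 1 → kD x t c T = 0

/-- vanishing of the `i`-th cohomology in degree `d` -/
def KV (x : Fin n → R) (G : ℤ → AddSubgroup P) (i : ℕ) (d : ℤ) : Prop :=
  ∀ t c, Co G d t i c → Cy x t i c →
    ∃ s b, Co' G d (t + s) i b ∧ ∀ T, T.card = i → kT x s c T = kD x (t + s) b T

/-- cocycles of the image lift to cocycles -/
def KS (x : Fin n → R) (G : ℤ → AddSubgroup P) (f : P →ₗ[R] P') (i : ℕ) (d : ℤ) : Prop :=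
  ∀ t c, Co (fun a => (G a).map f.toAddMonoidHom) d t i c → Cy x t i c →
    ∃ s z, Co G d (t + s) i z ∧ Cy x (t + s) i z ∧ ∀ T, T.card = i → kT x s c T = f (z T)

theorem co'_succ {G : ℤ → AddSubgroup P} : Co' G d t (i + 1) c ↔ Co G d t i c := by
  simp only [Co', Co, Nat.add_right_cancel_iff]

theorem Cy.kT (h : Cy x t i c) (s : ℕ) : Cy x (t + s) i (kT x s c) := fun T hT => by
  rw [kD_kT, Pool.Agent.P.MP_72aa19_al.kT, h T hT, smul_zero]

variable [IsDomain R] {𝒜 : ℕ → Submodule K R} [GradedAlgebra 𝒜] {G : ℤ → AddSubgroup P}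

omit [IsDomain R] in
theorem sgn_mem (T : Finset (Fin n)) (j : Fin n) : sgn R T j ∈ gradeZ 𝒜 0 := by
  have h1 : (1 : R) ∈ gradeZ 𝒜 0 := mem_gradeZ_nat.2 (SetLike.GradedOne.one_mem (A := 𝒜))
  rcases neg_one_pow_eq_or R (T.filter (· < j)).card with h | h <;> rw [sgn, h]
  · exact h1
  · exact neg_mem h1

theorem IsGr.kT (hG : IsGr 𝒜 G) (hx : Gen 𝒜 x) (s : ℕ) (h : c T ∈ G (d + t * T.card)) :
    kT x s c T ∈ G (d + (t + s : ℕ) * T.card) :=
  hG (hx.pow_mem T s) h (by push_cast; ring)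

theorem IsGr.kD (hG : IsGr 𝒜 G) (hx : Gen 𝒜 x) (h : Co' G d t i c) : Co G d t i (kD x t c) := by
  intro T hT
  refine sum_mem fun j hj => ?_
  have e := Finset.card_erase_add_one hj
  refine hG (gradeZ_mul (sgn_mem T j) (pow_mem_gradeZ (hx.deg j) t)) (h _ (e.trans hT)) ?_
  rw [← e]
  push_cast
  ring

omit [IsDomain R] [GradedAlgebra 𝒜] in
theorem IsGr.ker (hG : IsGr 𝒜 G) (N : Submodule R P) :
    IsGr 𝒜 fun a => G a ⊓ N.toAddSubgroup :=
  fun _ _ _ r _ hr hm e => ⟨hG hr hm.1 e, N.smul_mem r hm.2⟩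

omit [IsDomain R] [GradedAlgebra 𝒜] in
theorem IsGr.map (hG : IsGr 𝒜 G) (f : P →ₗ[R] P') :
    IsGr 𝒜 fun a => (G a).map f.toAddMonoidHom := by
  rintro _ _ _ r _ hr ⟨m, hm, rfl⟩ e
  exact ⟨r • m, hG hr hm e, f.map_smul r m⟩

omit [IsDomain R] in
theorem exists_lift {f : P →ₗ[R] P'} {c : Finset (Fin n) → P'} {p : Finset (Fin n) → Prop}
    {e : Finset (Fin n) → ℤ} (h : ∀ S, p S → c S ∈ (G (e S)).map f.toAddMonoidHom) :
    ∃ b : Finset (Fin n) → P, ∀ S, p S → b S ∈ G (e S) ∧ f (b S) = c S := by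
  have : ∀ S, ∃ b, p S → b ∈ G (e S) ∧ f b = c S := fun S => by
    by_cases hp : p S
    · obtain ⟨b, hb⟩ := h S hp
      exact ⟨b, fun _ => hb⟩
    · exact ⟨0, fun h => absurd h hp⟩
  exact Classical.axiom_of_choice this

theorem KV.ks_of_ker (hG : IsGr 𝒜 G) (hx : Gen 𝒜 x) {f : P →ₗ[R] P'}
    (h : KV x (fun a => G a ⊓ (LinearMap.ker f).toAddSubgroup) (i + 1) d) : KS x G f i d := by
  intro t c hc hz
  obtain ⟨b, hb⟩ := exists_lift hc
  obtain ⟨s, a, ha, e⟩ := h t (kD x t b) (fun T hT =>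
    ⟨hG.kD hx (co'_succ.2 fun S hS => (hb S hS).1) T hT, by
      change f _ = 0
      rw [← kD_map, ← hz T hT]
      exact kD_congr fun S hS => (hb S (by omega)).2⟩) fun T _ => kD_kD
  refine ⟨s, kT x s b - a, fun S hS => sub_mem (hG.kT hx s (hb S hS).1) (ha S (by omega)).1,
    fun T hT => by rw [kD_sub, kD_kT, e T hT, sub_self], fun T hT => ?_⟩
  have : f (a T) = 0 := (ha T (by omega)).2
  rw [Pi.sub_apply, map_sub, this, sub_zero, kT, kT, map_smul, (hb T hT).2]

theorem KS.kv_ker (hG : IsGr 𝒜 G) (hx : Gen 𝒜 x) {f : P →ₗ[R] P'} (h : KS x G f i d)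
    (h' : KV x G (i + 1) d) :
    KV x (fun a => G a ⊓ (LinearMap.ker f).toAddSubgroup) (i + 1) d := by
  intro t c hc hz
  obtain ⟨s, b, hb, e⟩ := h' t c (fun S hS => (hc S hS).1) hz
  obtain ⟨s', z, h1, h2, h3⟩ := h (t + s) (f ∘ b) (fun S hS => ⟨b S, hb S (by omega), rfl⟩)
    fun T hT => by
      have : f (c T) = 0 := (hc T hT).2
      rw [kD_map, ← e T hT, kT, map_smul, this, smul_zero]
  refine ⟨s + s', kT x s' b - z, fun S hS => ⟨?_, ?_⟩, fun T hT => ?_⟩
  · rw [← add_assoc]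
    exact (G _).sub_mem (hG.kT hx s' (hb S hS)) (h1 S (by omega))
  · change f _ = 0
    rw [Pi.sub_apply, map_sub, ← h3 S (by omega), kT_map, sub_self]
  · rw [← add_assoc, kD_sub, h2 T hT, sub_zero, kD_kT, ← kT_kT, kT, e T hT, kT]

theorem KV.ks_of_map (hG : IsGr 𝒜 G) (hx : Gen 𝒜 x) {f : P →ₗ[R] P'}
    (h : KV x (fun a => (G a).map f.toAddMonoidHom) i d) : KS x G f i d := by
  intro t c hc hz
  obtain ⟨s, b, hb, e⟩ := h t c hc hz
  obtain ⟨a, ha⟩ := exists_lift hb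
  refine ⟨s, kD x (t + s) a, hG.kD hx fun S hS => (ha S hS).1, fun _ _ => kD_kD, fun T hT => ?_⟩
  rw [e T hT, ← kD_map]
  exact kD_congr fun S hS => (ha S (by omega)).2.symm

omit [IsDomain R] in
theorem KS.kv_map {f : P →ₗ[R] P'} (h : KS x G f i d) (h' : KV x G i d) :
    KV x (fun a => (G a).map f.toAddMonoidHom) i d := by
  intro t c hc hz
  obtain ⟨s, z, h1, h2, h3⟩ := h t c hc hz
  obtain ⟨s', b, hb, e⟩ := h' (t + s) z h1 h2
  refine ⟨s + s', f ∘ b, fun S hS => ⟨b S, by rw [← add_assoc]; exact hb S hS, rfl⟩,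
    fun T hT => ?_⟩
  rw [← add_assoc, kD_map, ← e T hT, ← kT_kT, kT, h3 T hT, kT, map_smul]

/-- transfer along a map that is injective on the pieces -/
theorem kv_map_iff {f : P →ₗ[R] P'} (hG : IsGr 𝒜 G) (hx : Gen 𝒜 x)
    (hf : ∀ a, ∀ m ∈ G a, f m = 0 → m = 0) :
    KV x (fun a => (G a).map f.toAddMonoidHom) i d ↔ KV x G i d := by
  constructor
  · intro h t c hc hz
    obtain ⟨s, b, hb, e⟩ := h t (f ∘ c) (fun S hS => ⟨c S, hc S hS, rfl⟩)
      fun T hT => by rw [kD_map, hz T hT, map_zero]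
    obtain ⟨a, ha⟩ := exists_lift hb
    have h1 : Co' G d (t + s) i a := fun S hS => (ha S hS).1
    refine ⟨s, a, h1, fun T hT => sub_eq_zero.1 (hf _ _
      ((G _).sub_mem (hG.kT hx s (hc T hT)) (hG.kD hx h1 T hT)) ?_)⟩
    rw [map_sub, ← kT_map, e T hT, ← kD_map, sub_eq_zero]
    exact kD_congr fun S hS => (ha S (by omega)).2.symm
  · refine KS.kv_map fun t c hc hz => ?_
    obtain ⟨a, ha⟩ := exists_lift hc
    have h1 : Co G d t i a := fun S hS => (ha S hS).1
    refine ⟨0, a, h1, fun T hT => hf _ _ (hG.kD hx (co'_succ.2 h1) T hT) ?_, fun T hT => ?_⟩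
    · rw [← kD_map, ← hz T hT]
      exact kD_congr fun S hS => (ha S (by omega)).2
    · rw [kT, pow_zero, one_smul, (ha T hT).2]

/-- elements that are killed by a power of every generator -/
def Tors (x : Fin n → R) (m : P) : Prop := ∃ t : ℕ, ∀ j, x j ^ t • m = 0

omit [IsDomain R] in
theorem cy_zero : Cy x t 0 c ↔ ∀ j, x j ^ t • c ∅ = 0 := by
  have h : ∀ j, kD x t c {j} = x j ^ t • c ∅ := fun j => by simp [kD, sgn, Finset.filter_singleton]
  refine ⟨fun h1 j => h j ▸ h1 {j} (by simp), fun h1 T hT => ?_⟩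
  obtain ⟨j, rfl⟩ := Finset.card_eq_one.1 hT
  rw [h, h1]

omit [IsDomain R] in
theorem kv_zero : KV x G 0 d ↔ ∀ m ∈ G d, Tors x m → m = 0 := by
  constructor
  · rintro h m hm ⟨t, ht⟩
    obtain ⟨s, b, -, e⟩ := h t (fun _ => m) (fun S hS => by simpa [hS] using hm) (cy_zero.2 ht)
    simpa [kT, kD] using e ∅ rfl
  · intro h t c hc hz
    refine ⟨0, 0, fun S hS => by omega, fun T hT => ?_⟩
    obtain rfl := Finset.card_eq_zero.1 hT
    rw [kD_zero, kT, h _ (by simpa using hc ∅ rfl) ⟨t, cy_zero.1 hz⟩, smul_zero]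

omit [IsDomain R] in
theorem ks_zero {f : P →ₗ[R] P'} : KS x G f 0 d ↔
    ∀ m ∈ (G d).map f.toAddMonoidHom, Tors x m → ∃ z ∈ G d, Tors x z ∧ f z = m := by
  constructor
  · rintro h m hm ⟨t, ht⟩
    obtain ⟨s, z, h1, h2, e⟩ := h t (fun _ => m) (fun S hS => by simpa [hS] using hm)
      (cy_zero.2 ht)
    exact ⟨z ∅, by simpa using h1 ∅ rfl, ⟨_, cy_zero.1 h2⟩, by simpa [kT] using (e ∅ rfl).symm⟩
  · intro h t c hc hz
    obtain ⟨z, h1, ⟨s, h2⟩, e⟩ := h (c ∅) (by simpa using hc ∅ rfl) ⟨t, cy_zero.1 hz⟩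
    refine ⟨s, fun _ => z, fun S hS => by simpa [hS] using h1,
      cy_zero.2 fun j => by rw [pow_add, mul_smul, h2, smul_zero], fun T hT => ?_⟩
    obtain rfl := Finset.card_eq_zero.1 hT
    simp [kT, e]

/-- dimension shifting along an exact sequence of acyclic modules -/
theorem kv_shift {E : ℕ → Type*} [∀ k, AddCommGroup (E k)] [∀ k, Module R (E k)]
    {G : ∀ k, ℤ → AddSubgroup (E k)} (hG : ∀ k, IsGr 𝒜 (G k)) (hx : Gen 𝒜 x)
    (f : ∀ k, E k →ₗ[R] E (k + 1)) (hE : ∀ k i, KV x (G k) (i + 1) d)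
    (hf : ∀ k a, (G k a).map (f k).toAddMonoidHom =
      G (k + 1) a ⊓ (LinearMap.ker (f (k + 1))).toAddSubgroup) (i k l : ℕ) (hl : l = k + i) :
    KV x (fun a => G k a ⊓ (LinearMap.ker (f k)).toAddSubgroup) (i + 1) d ↔
      KS x (G l) (f l) 0 d := by
  induction i generalizing k with
  | zero =>
    subst hl
    exact ⟨KV.ks_of_ker (hG _) hx, fun h => h.kv_ker (hG _) hx (hE _ _)⟩
  | succ i ih =>
    rw [← ih (k + 1) (by omega), ← funext (hf k)]
    exact ⟨fun h => (h.ks_of_ker (hG _) hx).kv_map (hE _ _),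
      fun h => (h.ks_of_map (hG _) hx).kv_ker (hG _) hx (hE _ _)⟩

/-- comparison with the Cech complex in the fraction field -/
theorem kv_iff_cech (hx : Gen 𝒜 x) (J : Ideal R) :
    KV x (fun a => J.toAddSubgroup ⊓ (gradeZ 𝒜 a).toAddSubgroup) i d ↔
      CechVanishes 𝒜 x J i d := by
  have key : ∀ (t : ℕ) (c : Finset (Fin n) → R) (u : Finset (Fin n) → FractionRing R) T,
      (∀ S, S.card + 1 = T.card → u S * algebraMap R (FractionRing R) ((∏ j ∈ S, x j) ^ t) =
        algebraMap R (FractionRing R) (c S)) →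
      cechD u T * algebraMap R (FractionRing R) ((∏ j ∈ T, x j) ^ t) =
        algebraMap R (FractionRing R) (kD x t c T) := by
    intro t c u T h
    rw [cechD_eq, kD, map_sum, Finset.sum_mul]
    refine Finset.sum_congr rfl fun j hj => ?_
    rw [smul_eq_mul, map_mul, ← h _ (Finset.card_erase_add_one hj), ← Finset.mul_prod_erase T x hj]
    simp only [sgn, map_mul, map_pow, map_neg, map_one, mul_pow]
    ring
  have hne : ∀ (S : Finset (Fin n)) (t : ℕ),
      algebraMap R (FractionRing R) ((∏ j ∈ S, x j) ^ t) ≠ 0 := fun S t => by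
    rw [map_pow]
    exact pow_ne_zero _ (hx.prod_ne S)
  have lev : ∀ (u : Finset (Fin n) → FractionRing R) (p : Finset (Fin n) → Prop),
      (∀ S, p S → u S ∈ cechPiece 𝒜 x J S d) → ∀ᶠ t : ℕ in Filter.atTop,
        ∃ c : Finset (Fin n) → R, ∀ S, p S → (c S ∈ J ∧ c S ∈ gradeZ 𝒜 (d + t * S.card)) ∧
          u S * algebraMap R (FractionRing R) ((∏ j ∈ S, x j) ^ t) =
            algebraMap R (FractionRing R) (c S) := by
    intro u p h
    have : ∀ᶠ t : ℕ in Filter.atTop, ∀ S, ∃ c : R, p S → (c ∈ J ∧ c ∈ gradeZ 𝒜 (d + t * S.card)) ∧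
        u S * algebraMap R (FractionRing R) ((∏ j ∈ S, x j) ^ t) =
          algebraMap R (FractionRing R) c := Filter.eventually_all.2 fun S => by
      by_cases hp : p S
      · obtain ⟨t₀, ht⟩ := hx.mem_piece_ge (h S hp)
        filter_upwards [Filter.eventually_ge_atTop t₀] with t h1
        obtain ⟨c, h2, h3, h4⟩ := ht t h1
        exact ⟨c, fun _ => ⟨⟨h2, h3⟩, h4⟩⟩
      · exact .of_forall fun _ => ⟨0, fun h => absurd h hp⟩
    exact this.mono fun t h => Classical.axiom_of_choice h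
  constructor
  · intro h u hu hz
    obtain ⟨t, c, hc⟩ := (lev u _ hu).exists
    obtain ⟨s, b, hb, e⟩ := h t c (fun S hS => (hc S hS).1) fun T hT =>
      IsFractionRing.to_map_eq_zero_iff.1 (by
        rw [← key t c u T fun S hS => (hc S (by omega)).2, hz T hT, zero_mul])
    refine ⟨fun S => algebraMap R _ (b S) / algebraMap R _ (∏ j ∈ S, x j) ^ (t + s),
      fun S hS => ⟨t + s, b S, (hb S hS).1, (hb S hS).2, rfl⟩, fun T hT => ?_⟩
    refine mul_right_cancel₀ (hne T (t + s)) ?_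
    rw [key (t + s) b _ T fun S _ => by rw [← map_pow, div_mul_cancel₀ _ (hne S _)], ← e T hT, kT,
      smul_eq_mul, map_mul, ← (hc T hT).2, pow_add, map_mul]
    ring
  · intro h t c hc hz
    have h1 : ∀ S, algebraMap R (FractionRing R) (c S) / algebraMap R _ (∏ j ∈ S, x j) ^ t *
        algebraMap R (FractionRing R) ((∏ j ∈ S, x j) ^ t) = algebraMap R _ (c S) := fun S => by
      rw [← map_pow, div_mul_cancel₀ _ (hne S _)]
    obtain ⟨u, hu, e⟩ := h (fun S => algebraMap R _ (c S) / algebraMap R _ (∏ j ∈ S, x j) ^ t)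
      (fun S hS => ⟨t, c S, (hc S hS).1, (hc S hS).2, rfl⟩) fun T hT =>
        mul_right_cancel₀ (hne T t) (by rw [key t c _ T fun S _ => h1 S, hz T hT]; simp)
    obtain ⟨t', ⟨b, hb⟩, ht⟩ := ((lev u _ hu).and (Filter.eventually_ge_atTop t)).exists
    obtain ⟨s, rfl⟩ := Nat.exists_eq_add_of_le ht
    refine ⟨s, b, fun S hS => (hb S hS).1, fun T hT => IsFractionRing.injective R (FractionRing R) ?_⟩
    rw [← key (t + s) b u T fun S hS => (hb S (by omega)).2, ← e T hT, kT, smul_eq_mul, map_mul,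
      pow_add, map_mul, ← mul_assoc, h1, mul_comm]

end Pool.Agent.P.MP_72aa19_al
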