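import Pool.Agent.P.MP_72aa19_al.D.Tot

/-! Local cohomology as a derived functor is computed by the Cech complex. -/

namespace Pool.Agent.P.MP_72aa19_al

open CategoryTheory CategoryTheory.Limits

variable {K R : Type} [Field K] [CommRing R] [Algebra K R] {n : ℕ}
  {𝒜 : ℕ → Submodule K R} [GradedAlgebra 𝒜] {M : GrMod 𝒜}

theorem isZero_derived_iff (I : InjectiveResolution M) (𝔞 : Ideal R) (i j k : ℕ)
    (hi : (ComplexShape.up ℕ).prev j = i) (hk : (ComplexShape.up ℕ).next j = k) (d : ℤ) :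
    IsZero ((((gammaFunctor (powFilt 𝒜 𝔞)).rightDerived j).obj M).obj.obj ⟨d⟩) ↔
      ∀ m ∈ torsionPart (powFilt 𝒜 𝔞) (I.cocomplex.X j).obj ⟨d⟩, (I.cocomplex.d j k).hom.app ⟨d⟩ m = 0 →
        ∃ m' ∈ torsionPart (powFilt 𝒜 𝔞) (I.cocomplex.X i).obj ⟨d⟩, (I.cocomplex.d i j).hom.app ⟨d⟩ m' = m := by
  let C := ((gammaFunctor (powFilt 𝒜 𝔞)).mapHomologicalComplex _).obj I.cocomplex
  have e : (ev 𝒜 d).obj (((gammaFunctor (powFilt 𝒜 𝔞)).rightDerived j).obj M) ≅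
      ((C.sc' i j k).map (ev 𝒜 d)).homology :=
    (ev 𝒜 d).mapIso (I.isoRightDerivedObj (gammaFunctor (powFilt 𝒜 𝔞)) j ≪≫ C.homologyIsoSc' i j k hi hk) ≪≫
      ((C.sc' i j k).mapHomologyIso (ev 𝒜 d)).symm
  refine e.isZero_iff.trans ?_
  rw [← ShortComplex.exact_iff_isZero_homology, ShortComplex.ab_exact_iff]
  constructor
  · intro h m h1 h2
    obtain ⟨m', h3⟩ := h ⟨m, h1⟩ (Subtype.ext h2)
    exact ⟨m'.1, m'.2, congrArg Subtype.val h3⟩
  · intro h m h2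
    obtain ⟨m', h3, h4⟩ := h m.1 m.2 (congrArg Subtype.val h2)
    exact ⟨⟨m', h3⟩, Subtype.ext h4⟩

variable [IsDomain R] {x : Fin n → R}

theorem isZero_derived_iff' (hx : Gen 𝒜 x) (I : InjectiveResolution M) (i j k : ℕ)
    (hi : (ComplexShape.up ℕ).prev j = i) (hk : (ComplexShape.up ℕ).next j = k) (d : ℤ) :
    IsZero ((((gammaFunctor (powFilt 𝒜 (Ideal.span (Set.range x)))).rightDerived j).obj M).obj.obj ⟨d⟩) ↔
      ∀ z ∈ pc (I.cocomplex.X j) d ⊓ (LinearMap.ker (totMap (I.cocomplex.d j k))).toAddSubgroup,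
        Tors x z → ∃ w ∈ pc (I.cocomplex.X i) d, Tors x w ∧ totMap (I.cocomplex.d i j) w = z := by
  rw [isZero_derived_iff I _ i j k hi hk]
  constructor
  · intro h z h1 h2
    obtain ⟨m, h3, h4⟩ := h (z d) ((tors_iff hx.deg h1.1).2 h2) ((totMap_eq_zero _ h1.1).1 h1.2)
    obtain ⟨w, h5, rfl⟩ := exists_pc d m
    exact ⟨w, h5, (tors_iff hx.deg h5).1 h3, pc_ext (totMap_mem _ h5) h1.1 h4⟩
  · intro h m h1 h2
    obtain ⟨z, h3, rfl⟩ := exists_pc d m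
    obtain ⟨w, h4, h5, rfl⟩ := h z ⟨h3, (totMap_eq_zero _ h3).2 h2⟩ ((tors_iff hx.deg h3).1 h1)
    exact ⟨w d, (tors_iff hx.deg h4).2 h5, rfl⟩

theorem isZero_derived_iff_kv [IsNoetherianRing R] (hx : Gen 𝒜 x) (M : GrMod 𝒜) (j : ℕ) (d : ℤ) :
    IsZero ((((gammaFunctor (powFilt 𝒜 (Ideal.span (Set.range x)))).rightDerived j).obj M).obj.obj ⟨d⟩) ↔
      KV x (pc M) j d := by
  let I := injectiveResolution M
  let ε : M ⟶ I.cocomplex.X 0 := I.ι.f 0
  have : Mono ε := inferInstanceAs (Mono (I.ι.f 0))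
  have h0 : ∀ a, (pc M a).map (totMap ε).toAddMonoidHom = pc (I.cocomplex.X 0) a ⊓
      (LinearMap.ker (totMap (I.cocomplex.d 0 (0 + 1)))).toAddSubgroup := pc_exact I.exact₀
  have h1 : ∀ k a, (pc (I.cocomplex.X k) a).map (totMap (I.cocomplex.d k (k + 1))).toAddMonoidHom =
      pc (I.cocomplex.X (k + 1)) a ⊓
        (LinearMap.ker (totMap (I.cocomplex.d (k + 1) (k + 1 + 1)))).toAddSubgroup :=
    fun k => pc_exact (I.exact_succ k)
  rw [← kv_map_iff (isGr_pc M) hx (totMap_inj ε), funext h0]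
  rcases j with _ | l
  · rw [isZero_derived_iff' hx I 0 0 (0 + 1) (by simp) (by simp), kv_zero]
    refine forall₃_congr fun z hz _ => ⟨?_, ?_⟩
    · rintro ⟨w, -, -, rfl⟩
      rw [I.cocomplex.shape 0 0 (by simp)]
      rfl
    · rintro rfl
      exact ⟨0, zero_mem _, ⟨0, fun _ => smul_zero _⟩, map_zero _⟩
  · rw [isZero_derived_iff' hx I l (l + 1) (l + 1 + 1) (by simp) (by simp),
      kv_shift (E := fun k => Tot (I.cocomplex.X k)) (fun k => isGr_pc _) hx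
        (fun k => totMap (I.cocomplex.d k (k + 1)))
        (fun k i => (baer_pc _).kv hx (isGr_pc _) i d) h1 l 0 l (zero_add l).symm, ks_zero, h1]

/-- the inclusion of an ideal -/
def idealIncl (J : Ideal R) : idealMod 𝒜 J ⟶ idealMod 𝒜 ⊤ := ObjectProperty.homMk
  { app := fun _ => AddCommGrpCat.ofHom
      (AddSubgroup.inclusion fun _ h => ⟨trivial, h.2⟩)
    naturality := fun _ _ _ => rfl }

theorem kv_pc_ideal (hx : Gen 𝒜 x) (J : Ideal R) (j : ℕ) (d : ℤ) :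
    KV x (pc (idealMod 𝒜 J)) j d ↔ CechVanishes 𝒜 x J j d := by
  obtain ⟨u, h1, h2⟩ := exists_pc (M := idealMod 𝒜 ⊤) 0
    ⟨(1 : R), trivial, mem_gradeZ_nat.2 (SetLike.GradedOne.one_mem (A := 𝒜))⟩
  have h3 : ∀ a, ∀ r ∈ gradeZ 𝒜 a, r • u ∈ pc _ a ∧ ((r • u) a).1 = r := fun a r hr =>
    ⟨isGr_pc _ hr h1 (zero_add a).symm, by
      rw [show (r • u) a = _ from tot_smul (hm hr (sub_zero a).symm) u, h2]
      exact mul_one r⟩
  have h4 : IsGr 𝒜 fun a => J.toAddSubgroup ⊓ (gradeZ 𝒜 a).toAddSubgroup :=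
    fun e a b r m hr hm h => ⟨J.mul_mem_left r hm.1, mul_mem_gradeZ 𝒜 hr hm.2 (by omega)⟩
  rw [← kv_iff_cech hx, ← kv_map_iff (f := LinearMap.toSpanSingleton R _ u) h4 hx
      fun a r hr h => (h3 a r hr.2).2.symm.trans (congrArg Subtype.val (congrFun h a)),
    ← kv_map_iff (f := totMap (idealIncl J)) (isGr_pc _) hx fun a z hz h =>
      pc_ext hz (zero_mem _) (Subtype.ext
        (show (z a).1 = 0 from congrArg Subtype.val (congrFun h a)))]
  refine iff_of_eq (congrArg (fun G => KV x G j d) (funext fun a => le_antisymm ?_ ?_))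
  · rintro _ ⟨z, hz, rfl⟩
    exact ⟨(z a).1, (z a).2, pc_ext (h3 a _ (z a).2.2).1 (totMap_mem (idealIncl J) hz)
      (Subtype.ext (h3 a _ (z a).2.2).2)⟩
  · rintro _ ⟨r, hr, rfl⟩
    obtain ⟨z, h5, h6⟩ := exists_pc (M := idealMod 𝒜 J) a ⟨r, hr⟩
    exact ⟨z, h5, pc_ext (totMap_mem (idealIncl J) h5) (h3 a r hr.2).1
      (Subtype.ext ((congrArg Subtype.val h6).trans (h3 a r hr.2).2.symm))⟩

theorem regularity_eq_reg [IsNoetherianRing R] (hx : Gen 𝒜 x)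
    (h : (HomogeneousIdeal.irrelevant 𝒜).toIdeal = Ideal.span (Set.range x)) (J : Ideal R) :
    regularity 𝒜 (idealMod 𝒜 J) = reg 𝒜 x J := by
  simp only [regularity, reg, localCoh, derivedGamma, NonzeroAt, h, isZero_derived_iff_kv hx,
    kv_pc_ideal hx]

end Pool.Agent.P.MP_72aa19_al
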