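import Pool.Agent.P.MP_72aa19_al.D.Defs
import Pool.Agent.P.MP_72aa19_al.D.Baer

/-! The total module of a graded module. -/

namespace Pool.Agent.P.MP_72aa19_al

open CategoryTheory CategoryTheory.Limits

variable {K R : Type} [Field K] [CommRing R] [Algebra K R] {n : ℕ}
  {𝒜 : ℕ → Submodule K R} [GradedAlgebra 𝒜]

/-- the product of the pieces -/
def Tot (M : GrMod 𝒜) : Type := ∀ a : ℤ, M.obj.obj ⟨a⟩

variable {M M' : GrMod 𝒜}

instance : AddCommGroup (Tot M) := inferInstanceAs (AddCommGroup (∀ a : ℤ, M.obj.obj ⟨a⟩))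

/-- a homogeneous element as a morphism -/
def hm {r : R} {a b e : ℤ} (h : r ∈ gradeZ 𝒜 e) (he : e = b - a) : (⟨a⟩ : Deg 𝒜) ⟶ ⟨b⟩ :=
  (⟨r, he ▸ h⟩ : gradeZ 𝒜 (b - a))

theorem map_congr (z : Tot M) {a a' b : ℤ} (h : a = a') (r : (⟨a⟩ : Deg 𝒜) ⟶ ⟨b⟩)
    (r' : (⟨a'⟩ : Deg 𝒜) ⟶ ⟨b⟩) (hr : r.1 = r'.1) :
    M.obj.map r (z a) = M.obj.map r' (z a') := by
  subst h
  rw [show r = r' from Subtype.ext hr]

/-- the action of a homogeneous element -/
def act (M : GrMod 𝒜) (e : ℕ) : 𝒜 e →+ AddMonoid.End (Tot M) where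
  toFun r :=
    { toFun := fun z b => M.obj.map (hm (mem_gradeZ_nat.2 r.2) (sub_sub_cancel b e).symm) (z (b - e))
      map_zero' := funext fun _ => map_zero _
      map_add' := fun _ _ => funext fun _ => map_add _ _ _ }
  map_zero' := AddMonoidHom.ext fun z => funext fun b =>
    ConcreteCategory.congr_hom (M.obj.map_zero (⟨b - e⟩ : Deg 𝒜) ⟨b⟩) (z (b - e))
  map_add' r s := AddMonoidHom.ext fun z => funext fun b =>
    ConcreteCategory.congr_hom (M.obj.map_add
      (f := hm (mem_gradeZ_nat.2 r.2) (sub_sub_cancel b e).symm)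
      (g := hm (mem_gradeZ_nat.2 s.2) (sub_sub_cancel b e).symm)) (z (b - e))

theorem act_one (M : GrMod 𝒜) : act M 0 (GradedMonoid.GOne.one (A := fun i => 𝒜 i)) = 1 :=
  AddMonoidHom.ext fun z => funext fun b => (map_congr z (sub_zero b) _ (𝟙 _) rfl).trans
    (ConcreteCategory.congr_hom (M.obj.map_id ⟨b⟩) (z b))

theorem act_mul (M : GrMod 𝒜) {i j : ℕ} (r : 𝒜 i) (s : 𝒜 j) :
    act M (i + j) (GradedMonoid.GMul.mul (A := fun i => 𝒜 i) r s) = act M i r * act M j s :=
  AddMonoidHom.ext fun z => funext fun b =>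
    (map_congr z (show b - ((i + j : ℕ) : ℤ) = b - i - j by push_cast; ring) _
      (hm (mem_gradeZ_nat.2 s.2) (sub_sub_cancel (b - i) j).symm ≫
        hm (mem_gradeZ_nat.2 r.2) (sub_sub_cancel b i).symm) (mul_comm r.1 s.1)).trans
      (ConcreteCategory.congr_hom (M.obj.map_comp _ _) _)

/-- the action of the ring -/
noncomputable def actHom (M : GrMod 𝒜) : R →+* AddMonoid.End (Tot M) :=
  (DirectSum.toSemiring (act M) (act_one M) (act_mul M)).comp
    (DirectSum.decomposeRingEquiv 𝒜).toRingHom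

noncomputable instance : Module R (Tot M) := Module.compHom _ (actHom M)

theorem smul_nat {e : ℕ} {r : R} (hr : r ∈ 𝒜 e) (z : Tot M) : r • z = act M e ⟨r, hr⟩ z := by
  have e1 : actHom M r = act M e ⟨r, hr⟩ :=
    (congrArg (DirectSum.toSemiring (act M) (act_one M) (act_mul M))
      (DirectSum.decompose_of_mem 𝒜 hr)).trans
        (DirectSum.toSemiring_of _ _ _ _ _)
  exact congrArg (fun u : AddMonoid.End (Tot M) => u z) e1

theorem tot_smul {a b : ℤ} (r : (⟨a⟩ : Deg 𝒜) ⟶ ⟨b⟩) (z : Tot M) :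
    (r.1 • z) b = M.obj.map r (z a) := by
  rcases mem_gradeZ_iff.1 r.2 with h | ⟨e, h, hr⟩
  · rw [h, zero_smul, show r = 0 from Subtype.ext h, M.obj.map_zero]
    rfl
  · rw [smul_nat hr]
    exact map_congr z (by dsimp only at h; omega) _ _ rfl

/-- the elements concentrated in degree `a` -/
def pc (M : GrMod 𝒜) (a : ℤ) : AddSubgroup (Tot M) where
  carrier := {z | ∀ b, b ≠ a → z b = 0}
  zero_mem' _ _ := rfl
  add_mem' {z w} hz hw b hb := by
    change z b + w b = 0
    rw [hz b hb, hw b hb, add_zero]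
  neg_mem' {z} hz b hb := by
    change -z b = 0
    rw [hz b hb, neg_zero]

theorem pc_ext {a : ℤ} {z w : Tot M} (hz : z ∈ pc M a) (hw : w ∈ pc M a) (h : z a = w a) :
    z = w := funext fun b => by
  by_cases e : b = a
  · exact e ▸ h
  · rw [hz b e, hw b e]

theorem exists_pc (a : ℤ) (m : M.obj.obj ⟨a⟩) : ∃ z ∈ pc M a, z a = m :=
  ⟨Pi.single (M := fun a : ℤ => M.obj.obj ⟨a⟩) a m, fun _ hb => Pi.single_eq_of_ne hb _,
    Pi.single_eq_same _ _⟩

theorem isGr_pc (M : GrMod 𝒜) : IsGr 𝒜 (pc M) := by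
  rintro e a _ r z hr hz rfl c hc
  refine (tot_smul (hm hr (sub_sub_cancel c e).symm) z).trans ?_
  rw [hz (c - e) (by omega), map_zero]

/-- the additive map of a morphism -/
def totAdd (f : M ⟶ M') : Tot M →+ Tot M' where
  toFun z a := f.hom.app ⟨a⟩ (z a)
  map_zero' := funext fun _ => map_zero _
  map_add' _ _ := funext fun _ => map_add _ _ _

/-- the linear map of a morphism -/
noncomputable def totMap (f : M ⟶ M') : Tot M →ₗ[R] Tot M' where
  toFun := totAdd f
  map_add' := map_add _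
  map_smul' r z := by
    rw [RingHom.id_apply]
    induction r using DirectSum.Decomposition.inductionOn 𝒜 with
    | zero => rw [zero_smul, zero_smul, map_zero]
    | homogeneous r =>
      rw [smul_nat r.2, smul_nat r.2]
      exact funext fun b => ConcreteCategory.congr_hom (f.hom.naturality _) _
    | add r s hr hs => rw [add_smul, add_smul, map_add, hr, hs]

theorem totMap_apply (f : M ⟶ M') (z : Tot M) (a : ℤ) : totMap f z a = f.hom.app ⟨a⟩ (z a) := rfl

theorem totMap_mem (f : M ⟶ M') {a : ℤ} {z : Tot M} (hz : z ∈ pc M a) : totMap f z ∈ pc M' a :=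
  fun b hb => by rw [totMap_apply, hz b hb, map_zero]

theorem totMap_eq_zero (f : M ⟶ M') {a : ℤ} {z : Tot M} (hz : z ∈ pc M a) :
    totMap f z = 0 ↔ f.hom.app ⟨a⟩ (z a) = 0 :=
  ⟨fun h => congrFun h a, fun h => pc_ext (totMap_mem f hz) (zero_mem _) h⟩

theorem totMap_inj (f : M ⟶ M') [Mono f] (a : ℤ) : ∀ z ∈ pc M a, totMap f z = 0 → z = 0 := by
  intro z hz h
  have h1 := (AddCommGrpCat.mono_iff_injective _).1 (mono_app f ⟨a⟩)
  exact pc_ext hz (zero_mem _) ((injective_iff_map_eq_zero _).1 h1 _ ((totMap_eq_zero f hz).1 h))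

/-- evaluation in degree `a` -/
def ev (𝒜 : ℕ → Submodule K R) [GradedAlgebra 𝒜] (a : ℤ) : GrMod 𝒜 ⥤ AddCommGrpCat.{0} :=
  (additiveFunctor (Deg 𝒜) AddCommGrpCat.{0}).ι ⋙ (evaluation _ _).obj ⟨a⟩

instance (a : ℤ) : (ev 𝒜 a).Additive where
  map_add := rfl

instance (a : ℤ) : (ev 𝒜 a).PreservesHomology where
  preservesKernels X Y f := by
    have := (additiveFunctor (Deg 𝒜) AddCommGrpCat.{0}).preservesKernels_ι f
    unfold ev
    infer_instance
  preservesCokernels X Y f := by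
    have := (additiveFunctor (Deg 𝒜) AddCommGrpCat.{0}).preservesCokernels_ι f
    unfold ev
    infer_instance

theorem pc_exact {S : ShortComplex (GrMod 𝒜)} (h : S.Exact) (a : ℤ) :
    (pc S.X₁ a).map (totMap S.f).toAddMonoidHom =
      pc S.X₂ a ⊓ (LinearMap.ker (totMap S.g)).toAddSubgroup := by
  have h1 := (ShortComplex.ab_exact_iff _).1 (h.map (ev 𝒜 a))
  refine le_antisymm ?_ fun z hz => ?_
  · rintro _ ⟨z, hz, rfl⟩
    exact ⟨totMap_mem _ hz, (totMap_eq_zero _ (totMap_mem _ hz)).2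
      (ConcreteCategory.congr_hom (S.map (ev 𝒜 a)).zero (z a))⟩
  · obtain ⟨m, hm⟩ := h1 (z a) ((totMap_eq_zero _ hz.1).1 hz.2)
    obtain ⟨w, h2, rfl⟩ := exists_pc a m
    exact ⟨w, h2, pc_ext (totMap_mem _ h2) hz.1 hm⟩

section Sub

variable {P P' : Type} [AddCommGroup P] [Module R P] [AddCommGroup P'] [Module R P']
  {H : ℤ → AddSubgroup P} {H' : ℤ → AddSubgroup P'}

/-- the graded module of a grading family -/
def subMod (hH : IsGr 𝒜 H) : GrMod 𝒜 where
  obj :=
    { obj := fun a => AddCommGrpCat.of (H a.deg)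
      map := fun {a b} r => AddCommGrpCat.ofHom
        (((DistribSMul.toAddMonoidHom P r.1).comp (AddSubgroup.subtype _)).codRestrict _
          (fun m => hH r.2 m.2 (by ring)))
      map_id := fun a => by ext m; exact one_smul R m.1
      map_comp := fun r s => by
        ext m
        exact (congrArg (· • m.1) (mul_comm r.1 s.1)).trans (mul_smul _ _ _) }
  property := ⟨fun {a b r s} => by ext m; exact add_smul r.1 s.1 m.1⟩

/-- the morphism of a linear map -/
def subHom (hH : IsGr 𝒜 H) (hH' : IsGr 𝒜 H') (f : P →ₗ[R] P') (hf : ∀ a, ∀ m ∈ H a, f m ∈ H' a) :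
    subMod hH ⟶ subMod hH' := ObjectProperty.homMk
  { app := fun a => AddCommGrpCat.ofHom
      ((f.toAddMonoidHom.comp (AddSubgroup.subtype _)).codRestrict _ fun m => hf _ _ m.2)
    naturality := fun a b r => by
      ext m
      exact Subtype.ext (f.map_smul r.1 m.1) }

theorem subHom_mono (hH : IsGr 𝒜 H) (hH' : IsGr 𝒜 H') (f : P →ₗ[R] P')
    (hf : ∀ a, ∀ m ∈ H a, f m ∈ H' a) (h : Function.Injective f) : Mono (subHom hH hH' f hf) := by
  apply (additiveFunctor (Deg 𝒜) AddCommGrpCat.{0}).ι.mono_of_mono_map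
  change Mono (subHom hH hH' f hf).hom
  rw [NatTrans.mono_iff_mono_app]
  intro a
  rw [AddCommGrpCat.mono_iff_injective]
  exact fun m m' e => Subtype.ext (h (congrArg Subtype.val e))

/-- the morphism of a linear map to the total module -/
noncomputable def toMod (hH : IsGr 𝒜 H) (f : P →ₗ[R] Tot M) : subMod hH ⟶ M := ObjectProperty.homMk
  { app := fun a => AddCommGrpCat.ofHom
      { toFun := fun m => f m.1 a.deg
        map_zero' := congrFun f.map_zero _
        map_add' := fun m m' => congrFun (f.map_add m.1 m'.1) _ }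
    naturality := fun a b r => by
      ext m
      exact (congrFun (f.map_smul r.1 m.1) b.deg).trans (tot_smul r _) }

end Sub

theorem baer_pc (E : GrMod 𝒜) [Injective E] : Baer 𝒜 (pc E) := by
  intro φ d
  have h1 : IsGr 𝒜 fun a => (gradeZ 𝒜 (a - d)).toAddSubgroup := fun e a b r m hr hm h =>
    mul_mem_gradeZ 𝒜 hr hm (by omega)
  have h2 : IsGr 𝒜 fun a => (gradeZ 𝒜 (a - d)).toAddSubgroup.comap
      φ.domain.subtype.toAddMonoidHom := fun e a b r m hr hm h => h1 hr hm h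
  have := subHom_mono h2 h1 φ.domain.subtype (fun _ _ h => h) Subtype.val_injective
  obtain ⟨g, hg⟩ := Injective.factors (toMod h2 φ.toFun)
    (subHom h2 h1 φ.domain.subtype fun _ _ h => h)
  obtain ⟨m, h3, h4⟩ := exists_pc d (g.hom.app ⟨d⟩ ⟨1, one_mem_gradeZ 𝒜 d⟩)
  refine ⟨m, h3, fun y a h5 h6 => pc_ext (isGr_pc E h5 h3 (by omega)) h6 ?_⟩
  refine (tot_smul (hm h5 rfl) m).trans ?_
  rw [h4]
  refine (ConcreteCategory.congr_hom (g.hom.naturality (hm h5 rfl)) _).symm.trans ?_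
  refine Eq.trans ?_ (ConcreteCategory.congr_hom (congrArg (fun u => u.hom.app ⟨a⟩) hg) ⟨y, h5⟩)
  exact congrArg (g.hom.app ⟨a⟩) (Subtype.ext (mul_one y.1))

theorem tors_iff [IsDomain R] {x : Fin n → R} (hx : ∀ j, x j ∈ 𝒜 1) {a : ℤ} {z : Tot M} (hz : z ∈ pc M a) :
    z a ∈ torsionPart (powFilt 𝒜 (Ideal.span (Set.range x))) M.obj ⟨a⟩ ↔ Tors x z := by
  constructor
  · rintro ⟨N, h⟩
    refine ⟨N, fun j => ?_⟩
    have h1 := pow_mem_gradeZ (hx j) N
    exact pc_ext (isGr_pc M h1 hz rfl) (zero_mem _)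
      ((tot_smul (hm h1 (add_sub_cancel_left a N).symm) z).trans
        (h _ _ (Ideal.pow_mem_pow (Ideal.subset_span (Set.mem_range_self j)) N)))
  · rintro ⟨t, h⟩
    obtain ⟨N, hN⟩ := Ideal.exists_pow_le_of_le_radical_of_fg
      (I := Ideal.span (Set.range x)) (J := LinearMap.ker (LinearMap.toSpanSingleton R _ z))
      (Ideal.span_le.2 (by rintro _ ⟨j, rfl⟩; exact ⟨t, h j⟩))
      (Submodule.fg_span (Set.finite_range x))
    exact ⟨N, fun b r hr => (tot_smul r z).symm.trans (congrFun (hN hr) b.deg)⟩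

end Pool.Agent.P.MP_72aa19_al
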